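import Mathlib

namespace Pool.Agent.Results.MP_dfec24_co.Six

/-- generalized Thue-Morse word `t_{b,2}`. -/
def t (b n : ℕ) : ℕ := (Nat.digits b n).sum % 2

/-- the operation `S`. -/
def S (u : ℕ → ℕ) (n : ℕ) : ℕ := (u n + u (n + 1)) % 2

/-- the factor of length `L` of `u` starting at position `i`. -/
def factor (u : ℕ → ℕ) (i L : ℕ) : List ℕ := (List.range L).map fun j => u (i + j)

/-- number of distinct palindromic factors, the empty word included. -/
noncomputable def pals (w : List ℕ) : ℕ := {x : List ℕ | x <:+: w ∧ x.reverse = x}.ncard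

/-- a finite word is rich if it has `|w| + 1` distinct palindromic factors. -/
def Rich (w : List ℕ) : Prop := pals w = w.length + 1

lemma pals_eq (w : List ℕ) :
    pals w = ((w.tails.flatMap List.inits).toFinset.filter fun x => x.reverse = x).card := by
  unfold pals
  rw [← Set.ncard_coe_finset]
  congr 1
  ext x
  simp [List.infix_iff_prefix_suffix, and_comm]

lemma fac : factor (S^[9] (t 6)) 17 17 = [1, 0, 0, 0, 1, 0, 1, 0, 0, 0, 0, 0, 1, 0, 0, 0, 1] := by
  decide +kernel

theorem result :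
    factor (S^[9] (t 6)) 17 17 = [1, 0, 0, 0, 1, 0, 1, 0, 0, 0, 0, 0, 1, 0, 0, 0, 1] ∧
    pals (factor (S^[9] (t 6)) 17 17) = 17 ∧
    ¬ ∀ b k : ℕ, 2 ≤ b → 1 ≤ k → ∀ i L : ℕ, Rich (factor (S^[k] (t b)) i L) := by
  have h : pals (factor (S^[9] (t 6)) 17 17) = 17 := by
    rw [fac, pals_eq]; decide +kernel
  refine ⟨fac, h, fun H => ?_⟩
  have := H 6 9 (by norm_num) (by norm_num) 17 17
  unfold Rich at this
  rw [h, fac] at this
  simp at this

end Pool.Agent.Results.MP_dfec24_co.Six
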